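import Pool.Agent.H72.IPS.Wp
import Pool.Agent.H72.IPS.Erg
import Pool.Agent.H72.IPS.PCE
import Pool.Agent.H72.IPS.DualE
import Pool.Agent.H72.IPS.Cert

/-!
# Ergodicity of simple one-sided interacting particle systems outside a small region near the East line

`p s y` is the probability that a site in state `s` whose right neighbour is in state `y` becomes `1`
when its rate one clock rings (`p_{1|sy}` in the problem).  We write
`a0 = p_{1|00}`, `a1 = p_{1|01}`, `b0 = 1 - p_{1|10}`, `b1 = 1 - p_{1|11}` for the flip rates.

The whole region that was open is contained, up to the known symmetries, in the region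
`a0 ≤ a1`, `b0 ≤ b1` (flips are faster when the right neighbour is `1`, as in the East model, which is
`a0 = b0 = 0`).  We prove well-posedness and ergodicity for all systems of this kind with positive
rates, except those with
`a0 (b1 - a1) ≥ 2 a1 b0`, `b0 ≤ b1 / 20`, `b0 ≤ a1 / 4` and `a0 ≤ a1 / 3`.

The proof has two parts: a dual expansion (if `a0 (b1 - a1) < 2 a1 b0`), and a path coupling with weights
of the discrepancies depending on the states of the three left and the three right neighbours,
with exact certificates on a finite decomposition of the parameter space (otherwise).
-/

namespace Pool.Agent.Results.MP_a3c360_pr.EastLikeErgodic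

open H72IPS

/-- the flip rates of `p` in terms of the four numbers -/
theorem cr_eq_c4 (p : Bool → Bool → ℝ) :
    cr p = c4 (p false false) (p false true) (1 - p true false) (1 - p true true) := by
  funext s y
  cases s <;> cases y <;> simp [cr, c4]

theorem result (p : Bool → Bool → ℝ) (hp : IsProb p)
    (h00 : 0 < p false false) (h01 : 0 < p false true)
    (h10 : p true false < 1) (h11 : p true true < 1)
    (ha : p false false ≤ p false true) (hb : p true true ≤ p true false)
    (h : ¬ (2 * p false true * (1 - p true false)
          ≤ p false false * ((1 - p true true) - p false true) ∧
        20 * (1 - p true false) ≤ 1 - p true true ∧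
        4 * (1 - p true false) ≤ p false true ∧
        3 * p false false ≤ p false true)) :
    WellPosed p ∧ Ergodic p := by
  refine ⟨wellPosed hp, ergodic_of_asympConst hp ?_⟩
  have hE : ∀ s, cr p s false ≤ cr p s true := by
    intro s
    cases s
    · simpa [cr] using ha
    · have : 1 - p true false ≤ 1 - p true true := by linarith
      simpa only [cr, if_true] using this
  by_cases hT : p false false * ((1 - p true true) - p false true)
      < 2 * p false true * (1 - p true false)
  · refine asympConst_of_dual ⟨hp, ?_, hE, ?_⟩
    · intro s y
      cases s <;> cases y <;> simp [cr] <;> assumption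
    · simpa [cr] using hT
  · have hR : 1 - p true true < 20 * (1 - p true false) ∨
        p false true < 4 * (1 - p true false) ∨ p false true < 3 * p false false := by
      by_contra hcon
      push Not at hcon
      exact h ⟨not_lt.mp hT, hcon.1, hcon.2.1, hcon.2.2⟩
    obtain ⟨W, hW⟩ := cert (a0 := p false false) (a1 := p false true) (b0 := 1 - p true false)
      (b1 := 1 - p true true) h00 (by linarith) ha (by linarith) hT hR
    rw [← cr_eq_c4] at hW
    exact asympConst_of_pc hp hE hW

end Pool.Agent.Results.MP_a3c360_pr.EastLikeErgodic
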