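import Pool.Agent.H72.NE.Main

/-!
# Ergodicity of simple one-sided interacting particle systems in a full neighbourhood of the East line

`p s y` is the probability that a site in state `s` whose right neighbour is in state `y` becomes `1`
when its rate one clock rings (`p_{1|sy}` in the problem).  The East line is
`p_{1|00} = 0`, `p_{1|10} = 1` (no flips when the right neighbour is `0`), `p_{1|01} > 0`,
`p_{1|11} < 1`.

For every `η > 0` there is `ε > 0` such that all systems with positive rates and
`p_{1|01} ≥ η`, `1 - p_{1|11} ≥ η`, `p_{1|00} < ε`, `1 - p_{1|10} < ε` are well posed and ergodic.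
-/

namespace Pool.Agent.Results.MP_a3c360_pr.NearEastErgodic

open H72IPS

theorem result (η : ℝ) (hη : 0 < η) :
    ∃ ε : ℝ, 0 < ε ∧ ∀ p : Bool → Bool → ℝ, IsProb p →
      η ≤ p false true → p true true ≤ 1 - η →
      0 < p false false → p false false < ε → 1 - ε < p true false → p true false < 1 →
      WellPosed p ∧ Ergodic p := by
  obtain ⟨ε, hε, H⟩ := H72NE.near_east hη
  refine ⟨ε, hε, fun p hp h1 h2 h3 h4 h5 h6 => ?_⟩
  exact H p hp h1 (by linarith) h3 h4 (by linarith) (by linarith)

end Pool.Agent.Results.MP_a3c360_pr.NearEastErgodic
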